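import Pool.Agent.Helper60.T3.GoalsI

/-!
# Project T3 (MP_a41896_nt), packet IRRD: an irreducible relation with both degrees bounded
-/

set_option autoImplicit false

open MvPolynomial

namespace Pool.Agent.Helper17.T3.IRRD

open Pool.Agent.Helper60.T3

/-- Some irreducible factor vanishes. -/
theorem exists_irr {κ L : Type} [Field κ] [Field L] [Algebra κ L] (v : Fin 2 → L)
    (P : MvPolynomial (Fin 2) κ) :
    P ≠ 0 → aeval v P = 0 → ∃ Q : MvPolynomial (Fin 2) κ, Irreducible Q ∧ Q ∣ P ∧
      aeval v Q = 0 := by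
  induction P using WfDvdMonoid.induction_on_irreducible with
  | zero => intro h; exact absurd rfl h
  | unit u hu =>
    intro _ h
    exact absurd h (hu.map (aeval v)).ne_zero
  | mul a i ha hi ih =>
    intro _ h
    rw [map_mul] at h
    rcases mul_eq_zero.1 h with h | h
    · exact ⟨i, hi, Dvd.intro _ rfl, h⟩
    · obtain ⟨Q, h1, h2, h3⟩ := ih ha h
      exact ⟨Q, h1, h2.mul_left _, h3⟩

theorem degreeOf_le_of_dvd' {κ : Type} [Field κ] {Q P : MvPolynomial (Fin 2) κ} (h : Q ∣ P)
    (hP : P ≠ 0) (i : Fin 2) : Q.degreeOf i ≤ P.degreeOf i := by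
  obtain ⟨R, rfl⟩ := h
  have hQ : Q ≠ 0 := left_ne_zero_of_mul hP
  have hR : R ≠ 0 := right_ne_zero_of_mul hP
  rw [degreeOf_mul_eq hQ hR]
  exact Nat.le_add_right _ _

/-- the polynomial `q(X_1)` -/
noncomputable def up {κ : Type} [Field κ] (q : Polynomial κ) : MvPolynomial (Fin 2) κ :=
  Polynomial.aeval (X 1 : MvPolynomial (Fin 2) κ) q

theorem up_aeval {κ L : Type} [Field κ] [CommRing L] [Algebra κ L] (v : Fin 2 → L)
    (q : Polynomial κ) : aeval v (up q) = Polynomial.aeval (v 1) q := by
  rw [up, ← Polynomial.aeval_algHom_apply, aeval_X]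

theorem up_deg {κ : Type} [Field κ] (q : Polynomial κ) : (up q).degreeOf 0 = 0 := by
  apply Nat.le_zero.1
  rw [up, Polynomial.aeval_eq_sum_range]
  refine (degreeOf_sum_le _ _ _).trans (Finset.sup_le fun i _ => ?_)
  rw [smul_eq_C_mul]
  refine (degreeOf_C_mul_le _ _ _).trans ((degreeOf_pow_le _ _ _).trans ?_)
  rw [degreeOf_X]
  simp

theorem t (hG : S_GENQ) : S_IRRD := by
  intro κ L _ _ _ _ x y μ F P hx hF hμ hy hP hPv
  obtain ⟨Q, hQ1, hQ2, hQ3⟩ := exists_irr ![y, x] P hP hPv
  refine ⟨Q, hQ1, ?_, degreeOf_le_of_dvd' hQ2 hP 1, hQ3⟩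
  obtain ⟨hdiv, -, -⟩ := (hG κ L x y Q hQ1).1 hx hQ3
  -- the minimal polynomial
  set m := minpoly (IntermediateField.adjoin κ {x}) (⟨y, hy⟩ : F) with hm
  have hint : IsIntegral (IntermediateField.adjoin κ {x}) (⟨y, hy⟩ : F) :=
    Algebra.IsIntegral.isIntegral _
  have hmon : m.Monic := minpoly.monic hint
  have : Module.Free (IntermediateField.adjoin κ {x}) F := Module.Free.of_divisionRing _ _
  have hdeg : m.natDegree ≤ μ := (minpoly.natDegree_le _).trans hμ
  have hroot : Polynomial.aeval y m = 0 := by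
    have h1 : Polynomial.aeval (⟨y, hy⟩ : F) m = 0 := minpoly.aeval _ _
    have h2 := congrArg (algebraMap F L) h1
    rw [map_zero, ← Polynomial.aeval_algebraMap_apply] at h2
    exact h2
  have hc : ∀ i : ℕ, ∃ r s : Polynomial κ, Polynomial.aeval x s ≠ 0 ∧
      ((m.coeff i : IntermediateField.adjoin κ {x}) : L) * Polynomial.aeval x s =
        Polynomial.aeval x r := by
    intro i
    obtain ⟨r, s, h⟩ := (IntermediateField.mem_adjoin_simple_iff κ _).1 (m.coeff i).2
    by_cases hs : Polynomial.aeval x s = 0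
    · refine ⟨0, 1, ?_, ?_⟩
      · rw [map_one]
        exact one_ne_zero
      · rw [h, hs, div_zero, zero_mul, map_zero]
    · exact ⟨r, s, hs, by rw [h, div_mul_cancel₀ _ hs]⟩
  choose r s hs hrs using hc
  set d := m.natDegree with hd
  set S : Polynomial κ := ∏ j ∈ Finset.range (d + 1), s j with hS
  have hSx : Polynomial.aeval x S ≠ 0 := by
    rw [hS, map_prod]
    exact Finset.prod_ne_zero_iff.2 fun j _ => hs j
  set A : ℕ → Polynomial κ := fun i => r i * ∏ j ∈ (Finset.range (d + 1)).erase i, s j with hA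
  have hAx : ∀ i ∈ Finset.range (d + 1), Polynomial.aeval x (A i) =
      ((m.coeff i : IntermediateField.adjoin κ {x}) : L) * Polynomial.aeval x S := by
    intro i hi
    rw [hA, hS]
    dsimp only
    rw [map_mul, ← hrs i, ← Finset.mul_prod_erase _ _ hi, map_mul, mul_assoc]
  set G : MvPolynomial (Fin 2) κ := ∑ i ∈ Finset.range (d + 1), up (A i) * X 0 ^ i with hGd
  have hGv : ∀ (B : Type) [CommRing B] [Algebra κ B] (v : Fin 2 → B), aeval v G =
      ∑ i ∈ Finset.range (d + 1), Polynomial.aeval (v 1) (A i) * v 0 ^ i := by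
    intro B _ _ v
    rw [hGd, map_sum]
    apply Finset.sum_congr rfl
    intro i _
    rw [map_mul, up_aeval, map_pow, aeval_X]
  have hG0 : aeval ![y, x] G = 0 := by
    rw [hGv]
    have h1 : ∀ i ∈ Finset.range (d + 1), Polynomial.aeval (![y, x] 1) (A i) * ![y, x] 0 ^ i =
        Polynomial.aeval x S * (((m.coeff i : IntermediateField.adjoin κ {x}) : L) * y ^ i) := by
      intro i hi
      change Polynomial.aeval x (A i) * y ^ i = _
      rw [hAx i hi]
      ring
    rw [Finset.sum_congr rfl h1, ← Finset.mul_sum]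
    rw [Polynomial.aeval_eq_sum_range] at hroot
    have h2 : ∑ i ∈ Finset.range (d + 1),
        (((m.coeff i : IntermediateField.adjoin κ {x}) : L) * y ^ i) = 0 := by
      rw [← hroot]
      apply Finset.sum_congr rfl
      intro i _
      rw [Algebra.smul_def]
      rfl
    rw [h2, mul_zero]
  have hGne : G ≠ 0 := by
    intro h0
    have h1 := hGv (Polynomial L) ![Polynomial.X, Polynomial.C x]
    rw [h0, map_zero] at h1
    have h2 := congrArg (fun p : Polynomial L => p.coeff d) h1
    beta_reduce at h2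
    rw [Polynomial.coeff_zero, Polynomial.finsetSum_coeff,
      Finset.sum_eq_single_of_mem d (Finset.self_mem_range_succ d)] at h2
    · have h3 : Polynomial.aeval (Polynomial.C x : Polynomial L) (A d) =
          Polynomial.C (Polynomial.aeval x (A d)) := by
        have := Polynomial.aeval_algebraMap_apply (Polynomial L) x (A d)
        exact this
      change 0 = (Polynomial.aeval (Polynomial.C x : Polynomial L) (A d) *
        (Polynomial.X : Polynomial L) ^ d).coeff d at h2
      rw [h3, Polynomial.coeff_C_mul, Polynomial.coeff_X_pow, if_pos rfl, mul_one,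
        hAx d (Finset.self_mem_range_succ d)] at h2
      have h4 : m.coeff d = 1 := hmon
      rw [h4] at h2
      apply hSx
      simpa using h2.symm
    · intro i _ hid
      have h3 : Polynomial.aeval (Polynomial.C x : Polynomial L) (A i) =
          Polynomial.C (Polynomial.aeval x (A i)) := by
        have := Polynomial.aeval_algebraMap_apply (Polynomial L) x (A i)
        exact this
      change (Polynomial.aeval (Polynomial.C x : Polynomial L) (A i) *
        (Polynomial.X : Polynomial L) ^ i).coeff d = 0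
      rw [h3, Polynomial.coeff_C_mul, Polynomial.coeff_X_pow, if_neg (Ne.symm hid), mul_zero]
  have hQG : Q ∣ G := hdiv G hG0
  refine (degreeOf_le_of_dvd' hQG hGne 0).trans ?_
  rw [hGd]
  refine (degreeOf_sum_le _ _ _).trans (Finset.sup_le fun i hi => ?_)
  refine (degreeOf_mul_le _ _ _).trans ?_
  rw [up_deg, zero_add]
  refine (degreeOf_pow_le _ _ _).trans ?_
  rw [degreeOf_X, if_pos rfl, mul_one]
  exact (Nat.lt_succ_iff.1 (Finset.mem_range.1 hi)).trans hdeg

end Pool.Agent.Helper17.T3.IRRD
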