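import Pool.Agent.Helper68.T3.GoalsA
import Pool.Agent.Helper70.VN.RELP

/-!
# Project T3 (MP_a41896_nt), packet REDW: relations on a surface of small height
-/

set_option autoImplicit false

open MvPolynomial

namespace Pool.Agent.Helper17.T3.REDW

open Pool.Agent.Helper68.T3 Pool.Agent.Helper68.VN
open Pool.Agent.Helper70.VN.RELP (ext ext_apply ext_inj support_sub house_zero')
open NumberField (house)

noncomputable section

variable {K : Type} [Field K] [NumberField K] {σ : Type} [Fintype σ] [DecidableEq σ]

/-- expansion of the value of a polynomial in the given exponents -/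
theorem aeval_ext (I : Finset σ) (N : ℕ) (P : MvPolynomial σ K)
    (h1 : ∀ h ∈ I, P.degreeOf h ≤ N) (h2 : ∀ h, h ∉ I → P.degreeOf h = 0)
    {A : Type} [CommRing A] [Algebra K A] (x : σ → A) :
    aeval x P = ∑ u : {h // h ∈ I} → Fin (N + 1),
      algebraMap K A (coeff (ext I N u) P) * ∏ h, x h ^ (ext I N u h) := by
  rw [aeval_def, eval₂_eq', Finset.sum_subset (support_sub I N P h1 h2), Finset.sum_image]
  · intro u _ v _ huv
    exact ext_inj I N huv
  · intro s _ hs
    rw [notMem_support_iff.1 hs, map_zero, zero_mul]

/-- the monomial of the exponents outside `i'` -/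
def mon (i' : σ) (s : σ → ℕ) : σ →₀ ℕ :=
  Finsupp.equivFunOnFinite.symm fun i => if i = i' then 0 else s i

theorem mon_apply (i' : σ) (s : σ → ℕ) (i : σ) : mon i' s i = if i = i' then 0 else s i := rfl

/-- the polynomials `R'_(s,t)` -/
def Rp (i' : σ) (R : ℕ → ℕ → MvPolynomial σ K) (s : σ → ℕ) (t : ℕ) : MvPolynomial σ K :=
  monomial (mon i' s) 1 * R (s i') t

omit [NumberField K] in
theorem Rp_coeff (i' : σ) (R : ℕ → ℕ → MvPolynomial σ K) (s : σ → ℕ) (t : ℕ) (a : σ →₀ ℕ) :
    coeff a (Rp i' R s t) = 0 ∨ ∃ b, coeff a (Rp i' R s t) = coeff b (R (s i') t) := by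
  rw [Rp, coeff_monomial_mul']
  split_ifs with h
  · right
    exact ⟨a - mon i' s, one_mul _⟩
  · left
    rfl

omit [NumberField K] in
theorem Rp_aeval (i' : σ) (R : ℕ → ℕ → MvPolynomial σ K) (s : σ → ℕ) (t : ℕ)
    {A : Type} [CommRing A] [Algebra K A] (x : σ → A) :
    aeval x (Rp i' R s t) * x i' ^ t * 1 =
      (∏ i ∈ Finset.univ.erase i', x i ^ s i) * (aeval x (R (s i') t) * x i' ^ t) := by
  rw [Rp, map_mul, aeval_monomial, map_one, one_mul, mul_one, mul_assoc]
  congr 1
  rw [Finsupp.prod_fintype _ _ (fun i => pow_zero _), ← Finset.mul_prod_erase _ _ (Finset.mem_univ i')]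
  rw [mon_apply, if_pos rfl, pow_zero, one_mul]
  apply Finset.prod_congr rfl
  intro i hi
  rw [mon_apply, if_neg (Finset.ne_of_mem_erase hi)]

theorem mon_deg (i' : σ) (s : σ → ℕ) (N : ℕ) (hs : ∀ i, s i ≤ N) (i : σ) :
    (monomial (mon i' s) (1 : K)).degreeOf i ≤ if i = i' then 0 else N := by
  rw [degreeOf_monomial_eq _ _ one_ne_zero, mon_apply]
  split_ifs
  · exact le_rfl
  · exact hs i

theorem cancel {A : Type} [CommRing A] (a : A) (h : ∀ y : A, a * y = 0 → y = 0) (n : ℕ) (y : A)
    (hy : a ^ n * y = 0) : y = 0 := by
  induction n with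
  | zero => simpa using hy
  | succ n ih =>
    apply ih
    apply h
    rw [← hy]
    ring

theorem t_REDW (hPSD : PSD3) : Pool.Agent.Helper68.T3.REDW := by
  intro K _ _ σ _ _ D0
  obtain ⟨C, hC, hP⟩ := hPSD K σ D0
  refine ⟨C, hC, ?_⟩
  intro g i' A N hA hg0 hgD hgA
  obtain ⟨a0, w, R, ha0, ha1, ha2, ha3, hw, hR1, hR2, hR3, hR4⟩ := hP g i' A N hA hg0 hgD hgA
  refine ⟨a0, ha0, ha1, ha2, ha3, ?_⟩
  classical
  set I : Finset σ := Finset.univ.erase i' with hI
  set M := N * (1 + D0) with hM
  have hexp : (0 : ℝ) < Real.exp (C * ((N + 1) * (1 + A))) := Real.exp_pos _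
  have hbox : ∀ s ∈ box σ N, ∀ i, s i ≤ N := by
    intro s hs i
    have := Fintype.mem_piFinset.1 hs i
    exact Nat.lt_succ_iff.1 (Finset.mem_range.1 this)
  have hd1 : ∀ s ∈ box σ N, ∀ t i, (Rp i' R s t).degreeOf i ≤ M := by
    intro s hs t i
    refine (degreeOf_mul_le _ _ _).trans ?_
    have h1 := mon_deg (K := K) i' s N (hbox s hs) i
    have h2 := hR1 (s i') t i
    have h3 : (if i = i' then 0 else N) ≤ N := by
      split_ifs
      · exact Nat.zero_le _
      · exact le_rfl
    rw [hM, Nat.mul_add, Nat.mul_one]
    exact add_le_add (h1.trans h3) h2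
  have hd2 : ∀ s ∈ box σ N, ∀ t i, i ∉ I → (Rp i' R s t).degreeOf i = 0 := by
    intro s hs t i hi
    have hii : i = i' := by
      by_contra hne
      exact hi (Finset.mem_erase.2 ⟨hne, Finset.mem_univ _⟩)
    subst hii
    refine Nat.le_zero.1 ((degreeOf_mul_le _ _ _).trans ?_)
    have h1 := mon_deg (K := K) i s N (hbox s hs) i
    rw [if_pos rfl] at h1
    have h2 := (hR2 (s i) t).le
    exact add_le_add h1 h2
  refine ⟨Fin (D0 + 1) × ({h // h ∈ I} → Fin (M + 1)), inferInstance,
    fun tu s => if s ∈ box σ N then coeff (ext I M tu.2) (Rp i' R s tu.1.val) else 0, ?_, ?_⟩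
  · rw [Fintype.card_prod, Fintype.card_fun, Fintype.card_fin, Fintype.card_fin,
      Fintype.card_coe, hI, Finset.card_erase_of_mem (Finset.mem_univ _), Finset.card_univ]
  · refine ⟨?_, ?_, ?_⟩
    · rintro ⟨t, u⟩ s
      dsimp only
      split_ifs with hs
      · rcases Rp_coeff i' R s t.val (ext I M u) with h | ⟨b, h⟩
        · rw [h]
          exact isIntegral_zero
        · rw [h]
          exact (hR3 _ _ _).1
      · exact isIntegral_zero
    · rintro ⟨t, u⟩ s
      dsimp only
      split_ifs with hs
      · rcases Rp_coeff i' R s t.val (ext I M u) with h | ⟨b, h⟩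
        · rw [h, house_zero']
          exact hexp.le
        · rw [h]
          exact (hR3 _ _ _).2
      · rw [house_zero']
        exact hexp.le
    · intro A' _ _ X hXg hXa G hG
      have hkey : ∀ s ∈ box σ N, (algebraMap K A' w * aeval X a0) ^ N * ∏ i, X i ^ s i =
          ∑ t : Fin (D0 + 1), X i' ^ t.val * aeval X (Rp i' R s t.val) := by
        intro s hs
        rw [← Finset.mul_prod_erase _ _ (Finset.mem_univ i'), ← mul_assoc,
          hR4 A' X hXg (s i') (hbox s hs i'), Finset.sum_range, Finset.sum_mul]
        apply Finset.sum_congr rfl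
        intro t _
        have := Rp_aeval i' R s t.val X
        rw [mul_one] at this
        rw [mul_comm (X i' ^ t.val), this]
        ring
      have hz : (algebraMap K A' w * aeval X a0) ^ N *
          ∑ s ∈ box σ N, algebraMap K A' (G s) * ∏ i, X i ^ s i = 0 := by
        calc (algebraMap K A' w * aeval X a0) ^ N *
              ∑ s ∈ box σ N, algebraMap K A' (G s) * ∏ i, X i ^ s i
            = ∑ s ∈ box σ N, algebraMap K A' (G s) *
                ((algebraMap K A' w * aeval X a0) ^ N * ∏ i, X i ^ s i) := by
              rw [Finset.mul_sum]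
              apply Finset.sum_congr rfl
              intro s _
              ring
          _ = ∑ s ∈ box σ N, ∑ t : Fin (D0 + 1), ∑ u : {h // h ∈ I} → Fin (M + 1),
                X i' ^ t.val * ((∏ h, X h ^ (ext I M u h)) *
                  (algebraMap K A' (coeff (ext I M u) (Rp i' R s t.val)) *
                    algebraMap K A' (G s))) := by
              apply Finset.sum_congr rfl
              intro s hs
              rw [hkey s hs, Finset.mul_sum]
              apply Finset.sum_congr rfl
              intro t _
              rw [aeval_ext I M _ (fun h _ => hd1 s hs _ h) (fun h hh => hd2 s hs _ h hh),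
                Finset.mul_sum, Finset.mul_sum]
              apply Finset.sum_congr rfl
              intro u _
              ring
          _ = ∑ t : Fin (D0 + 1), X i' ^ t.val * ∑ u : {h // h ∈ I} → Fin (M + 1),
                (∏ h, X h ^ (ext I M u h)) * algebraMap K A'
                  (∑ s ∈ box σ N, coeff (ext I M u) (Rp i' R s t.val) * G s) := by
              rw [Finset.sum_comm]
              apply Finset.sum_congr rfl
              intro t _
              rw [Finset.sum_comm, Finset.mul_sum]
              apply Finset.sum_congr rfl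
              intro u _
              rw [map_sum, Finset.mul_sum, Finset.mul_sum]
              apply Finset.sum_congr rfl
              intro s _
              rw [map_mul]
          _ = 0 := by
              apply Finset.sum_eq_zero
              intro t _
              rw [Finset.sum_eq_zero, mul_zero]
              intro u _
              have h1 := hG (t, u)
              have h2 : ∑ s ∈ box σ N, coeff (ext I M u) (Rp i' R s t.val) * G s = 0 := by
                rw [← h1]
                apply Finset.sum_congr rfl
                intro s hs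
                rw [if_pos hs]
              rw [h2, map_zero, mul_zero]
      have hwu : IsUnit (algebraMap K A' w) := (IsUnit.mk0 w hw).map _
      rw [mul_pow, mul_assoc] at hz
      have hz2 := (hwu.pow N).mul_right_eq_zero.1 hz
      exact cancel _ hXa N _ hz2

end

end Pool.Agent.Helper17.T3.REDW
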